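import Pool.Agent.X170.Tame.Interp

/-!
# A Stein manifold with a tame set and a transitive automorphism group which is not flexible

The manifold is `X = Δ × ℂ²`, an open subset of `ℂ³ = ℂ × ℂ²`.
-/

set_option autoImplicit false

open Set Topology Filter Complex
open scoped ComplexConjugate

namespace Pool.Agent.Results.MP_2740df_an.DiscTimesPlane

/-- `ℂ³`, written as `ℂ × ℂ²`. -/
abbrev C3 : Type := ℂ × (ℂ × ℂ)

/-- `X ⊆ ℂ³` is a Stein manifold: it is open, connected and holomorphically convex (the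
holomorphically convex hulls of the compact subsets of `X` are compact). -/
def IsStein (X : Set C3) : Prop :=
  IsOpen X ∧ IsConnected X ∧ ∀ K : Set C3, K ⊆ X → IsCompact K →
    IsCompact {x | x ∈ X ∧ ∀ f : C3 → ℂ, DifferentiableOn ℂ f X → ∃ y ∈ K, ‖f x‖ ≤ ‖f y‖}

/-- `F` restricts to a holomorphic automorphism of the open set `X`. -/
def IsAut (X : Set C3) (F : C3 → C3) : Prop :=
  DifferentiableOn ℂ F X ∧ MapsTo F X X ∧ ∃ G : C3 → C3, DifferentiableOn ℂ G X ∧ MapsTo G X X ∧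
    LeftInvOn G F X ∧ RightInvOn G F X

/-- `Aut(X)` acts transitively. -/
def ActsTransitively (X : Set C3) : Prop := ∀ x ∈ X, ∀ y ∈ X, ∃ F, IsAut X F ∧ F x = y

/-- `A` is a tame set in `X`: an infinite subset of `X` without accumulation points in `X` such that
every injective map `A → A` is the restriction of an automorphism of `X`. -/
structure IsTame (X A : Set C3) : Prop where
  subset : A ⊆ X
  infinite : A.Infinite
  discrete : ∀ x ∈ X, ¬ AccPt x (𝓟 A)
  extend : ∀ f : C3 → C3, MapsTo f A A → InjOn f A → ∃ F, IsAut X F ∧ ∀ a ∈ A, F a = f a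

/-- `V` is a complete holomorphic vector field on `X`: its flow is defined for all complex times. -/
def IsCompleteField (X : Set C3) (V : C3 → C3) : Prop :=
  DifferentiableOn ℂ V X ∧ ∀ x ∈ X, ∃ γ : ℂ → C3, γ 0 = x ∧ ∀ t, γ t ∈ X ∧ HasDerivAt γ (V (γ t)) t

/-- `X` is holomorphically flexible. -/
def IsFlexible (X : Set C3) : Prop :=
  ∀ x ∈ X, Submodule.span ℂ {v | ∃ V, IsCompleteField X V ∧ V x = v} = ⊤

/-- The Lie algebra generated by the complete holomorphic vector fields on `X`. -/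
inductive LieGen (X : Set C3) : (C3 → C3) → Prop
  | complete {V : C3 → C3} (h : IsCompleteField X V) : LieGen X V
  | add {V W : C3 → C3} (hV : LieGen X V) (hW : LieGen X W) : LieGen X (fun x => V x + W x)
  | smul {V : C3 → C3} (c : ℂ) (hV : LieGen X V) : LieGen X (fun x => c • V x)
  | bracket {V W : C3 → C3} (hV : LieGen X V) (hW : LieGen X W) :
      LieGen X (fun x => fderiv ℂ W x (V x) - fderiv ℂ V x (W x))

/-- `X` has the density property. -/
def HasDensityProperty (X : Set C3) : Prop :=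
  ∀ V : C3 → C3, DifferentiableOn ℂ V X → ∀ K : Set C3, K ⊆ X → IsCompact K → ∀ ε : ℝ, 0 < ε →
    ∃ W, LieGen X W ∧ ∀ x ∈ K, ‖V x - W x‖ < ε

/-! ### Proof -/

/-- `Δ × ℂ²` -/
def XX : Set C3 := {p | ‖p.1‖ < 1}

theorem isOpen_XX : IsOpen XX := isOpen_lt continuous_fst.norm continuous_const

theorem convex_XX : Convex ℝ XX := by
  intro p hp q hq a b ha hb hab
  show ‖(a • p + b • q).1‖ < 1
  have hp' : ‖p.1‖ < 1 := hp
  have hq' : ‖q.1‖ < 1 := hq
  have h1 : ‖(a • p + b • q).1‖ ≤ a * ‖p.1‖ + b * ‖q.1‖ := by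
    have e : (a • p + b • q).1 = a • p.1 + b • q.1 := rfl
    rw [e]
    refine (norm_add_le _ _).trans ?_
    rw [norm_smul, norm_smul, Real.norm_of_nonneg ha, Real.norm_of_nonneg hb]
  refine lt_of_le_of_lt h1 ?_
  rcases ha.eq_or_lt with rfl | ha'
  · have : b = 1 := by linarith
    subst this
    linarith
  · nlinarith

theorem isStein_XX : IsStein XX := by
  refine ⟨isOpen_XX, ⟨⟨0, by simp [XX]⟩, convex_XX.isPreconnected⟩, fun K hK hKc => ?_⟩
  rcases K.eq_empty_or_nonempty with rfl | hne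
  · have : {x | x ∈ XX ∧ ∀ f : C3 → ℂ, DifferentiableOn ℂ f XX → ∃ y ∈ (∅ : Set C3), ‖f x‖ ≤ ‖f y‖} =
        (∅ : Set C3) := by
      rw [eq_empty_iff_forall_notMem]
      rintro x ⟨-, h⟩
      obtain ⟨y, hy, -⟩ := h 0 (differentiableOn_const 0)
      exact hy
    rw [this]
    exact isCompact_empty
  set H := {x | x ∈ XX ∧ ∀ f : C3 → ℂ, DifferentiableOn ℂ f XX → ∃ y ∈ K, ‖f x‖ ≤ ‖f y‖} with hH
  obtain ⟨y0, hy0, hmax⟩ := hKc.exists_isMaxOn hne (f := fun y : C3 => ‖y.1‖)
    continuous_fst.norm.continuousOn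
  have hρ : ∀ x ∈ H, ‖x.1‖ ≤ ‖y0.1‖ := by
    rintro x ⟨-, h⟩
    obtain ⟨y, hy, hxy⟩ := h (fun p => p.1) differentiable_fst.differentiableOn
    exact hxy.trans (hmax hy)
  have hy01 : ‖y0.1‖ < 1 := hK hy0
  obtain ⟨B, hB⟩ := hKc.isBounded.exists_norm_le
  have hbd : ∀ x ∈ H, ‖x‖ ≤ B := by
    rintro x ⟨-, h⟩
    obtain ⟨y, hy, hxy⟩ := h (fun p => p.1) differentiable_fst.differentiableOn
    obtain ⟨y', hy', hxy'⟩ := h (fun p => p.2.1) (by fun_prop)
    obtain ⟨y'', hy'', hxy''⟩ := h (fun p => p.2.2) (by fun_prop)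
    have b1 : ‖x.1‖ ≤ B := hxy.trans ((norm_fst_le y).trans (hB y hy))
    have b2 : ‖x.2.1‖ ≤ B :=
      hxy'.trans ((norm_fst_le y'.2).trans ((norm_snd_le y').trans (hB y' hy')))
    have b3 : ‖x.2.2‖ ≤ B :=
      hxy''.trans ((norm_snd_le y''.2).trans ((norm_snd_le y'').trans (hB y'' hy'')))
    rw [Prod.norm_def, Prod.norm_def x.2]
    exact max_le b1 (max_le b2 b3)
  refine Metric.isCompact_of_isClosed_isBounded ?_ ?_
  · rw [← closure_subset_iff_isClosed]
    intro x hx
    have hx1 : ‖x.1‖ ≤ ‖y0.1‖ := by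
      have hcl : IsClosed {x : C3 | ‖x.1‖ ≤ ‖y0.1‖} := isClosed_le continuous_fst.norm continuous_const
      exact hcl.closure_subset_iff.2 hρ hx
    have hxX : x ∈ XX := lt_of_le_of_lt hx1 hy01
    refine ⟨hxX, fun f hf => ?_⟩
    obtain ⟨y, hy, hymax⟩ := hKc.exists_isMaxOn hne (f := fun y : C3 => ‖f y‖)
      (hf.continuousOn.mono hK).norm
    refine ⟨y, hy, ?_⟩
    have hcont : ContinuousAt (fun x => ‖f x‖) x :=
      ((hf x hxX).differentiableAt (isOpen_XX.mem_nhds hxX)).continuousAt.norm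
    have hfreq : ∃ᶠ z in 𝓝 x, z ∈ H := mem_closure_iff_frequently.1 hx
    refine le_of_tendsto_of_frequently hcont.tendsto (hfreq.mono fun z hz => ?_)
    obtain ⟨y', hy', h'⟩ := hz.2 f hf
    exact h'.trans (hymax hy')
  · refine Metric.isBounded_closedBall.subset (t := Metric.closedBall (0 : C3) B) fun x hx => ?_
    rw [mem_closedBall_zero_iff]
    exact hbd x hx

theorem IsAut.comp {F F' : C3 → C3} (h : IsAut XX F) (h' : IsAut XX F') : IsAut XX (F' ∘ F) := by
  obtain ⟨hd, hm, G, hGd, hGm, hl, hr⟩ := h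
  obtain ⟨hd', hm', G', hGd', hGm', hl', hr'⟩ := h'
  refine ⟨hd'.comp hd hm, hm'.comp hm, G ∘ G', hGd.comp hGd' hGm', hGm.comp hGm', ?_, ?_⟩
  · intro x hx
    show G (G' (F' (F x))) = x
    rw [hl' (hm hx), hl hx]
  · intro x hx
    show F' (F (G (G' x))) = x
    rw [hr (hGm' hx), hr' hx]

/-- automorphisms preserving the first coordinate -/
theorem isAut_of {F G : C3 → C3} (hF : Differentiable ℂ F) (hG : Differentiable ℂ G)
    (hF1 : ∀ p, (F p).1 = p.1) (hG1 : ∀ p, (G p).1 = p.1) (h1 : ∀ p, G (F p) = p)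
    (h2 : ∀ p, F (G p) = p) : IsAut XX F :=
  ⟨hF.differentiableOn, fun p hp => by show ‖(F p).1‖ < 1; rw [hF1]; exact hp, G,
    hG.differentiableOn, fun p hp => by show ‖(G p).1‖ < 1; rw [hG1]; exact hp,
    fun p _ => h1 p, fun p _ => h2 p⟩

/-- Möbius maps -/
noncomputable def mob (a z : ℂ) : ℂ := (z - a) / (1 - conj a * z)

theorem mob_den {a z : ℂ} (ha : ‖a‖ < 1) (hz : ‖z‖ < 1) : 1 - conj a * z ≠ 0 := by
  intro h
  have h1 : conj a * z = 1 := (sub_eq_zero.1 h).symm
  have h2 : ‖conj a * z‖ < 1 := by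
    rw [norm_mul, Complex.norm_conj]
    nlinarith [norm_nonneg a, norm_nonneg z]
  rw [h1, norm_one] at h2
  exact lt_irrefl _ h2

theorem mob_lt {a z : ℂ} (ha : ‖a‖ < 1) (hz : ‖z‖ < 1) : ‖mob a z‖ < 1 := by
  unfold mob
  have hden := mob_den ha hz
  rw [norm_div, div_lt_one (norm_pos_iff.2 hden)]
  refine lt_of_pow_lt_pow_left₀ 2 (norm_nonneg _) ?_
  have e : ‖1 - conj a * z‖ ^ 2 - ‖z - a‖ ^ 2 = (1 - ‖a‖ ^ 2) * (1 - ‖z‖ ^ 2) := by
    simp only [← Complex.normSq_eq_norm_sq, Complex.normSq_apply, sub_re, sub_im, one_re, one_im,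
      mul_re, mul_im, conj_re, conj_im]
    ring
  have h1 : 0 < (1 - ‖a‖ ^ 2) * (1 - ‖z‖ ^ 2) := by
    apply mul_pos
    · nlinarith [norm_nonneg a]
    · nlinarith [norm_nonneg z]
  linarith

theorem mob_inv {a z : ℂ} (ha : ‖a‖ < 1) (hz : ‖z‖ < 1) : mob (-a) (mob a z) = z := by
  have h1 := mob_den ha hz
  have h2 : 1 - conj a * a ≠ 0 := mob_den ha ha
  have h3 : 1 - conj (-a) * mob a z ≠ 0 := mob_den (by rwa [norm_neg]) (mob_lt ha hz)
  have e1 : mob a z - (-a) = (z * (1 - conj a * a)) / (1 - conj a * z) := by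
    unfold mob
    rw [sub_neg_eq_add, div_add' _ _ _ h1]
    congr 1
    ring
  have e2 : 1 - conj (-a) * mob a z = (1 - conj a * a) / (1 - conj a * z) := by
    rw [eq_div_iff h1]
    unfold mob
    rw [map_neg, neg_mul, sub_neg_eq_add, add_mul, one_mul, mul_assoc, div_mul_cancel₀ _ h1]
    ring
  have e3 : mob (-a) (mob a z) = (mob a z - (-a)) / (1 - conj (-a) * mob a z) := rfl
  rw [e3, e1, e2, div_div_div_cancel_right₀ h1, mul_div_cancel_right₀ _ h2]

theorem isAut_mob {a : ℂ} (ha : ‖a‖ < 1) : IsAut XX (fun p => (mob a p.1, p.2)) := by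
  have hd : ∀ a : ℂ, ‖a‖ < 1 → DifferentiableOn ℂ (fun p : C3 => (mob a p.1, p.2)) XX := by
    intro a ha
    have h1 : DifferentiableOn ℂ (fun p : C3 => (p.1 - a) / (1 - conj a * p.1)) XX :=
      fun p hp => by
        have h2 : DifferentiableAt ℂ (fun p : C3 => p.1 - a) p := by fun_prop
        have h3 : DifferentiableAt ℂ (fun p : C3 => 1 - conj a * p.1) p := by fun_prop
        have h4 : DifferentiableAt ℂ (fun p : C3 => (1 - conj a * p.1)⁻¹) p :=
          h3.inv (mob_den ha hp)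
        have h5 : DifferentiableAt ℂ (fun p : C3 => (p.1 - a) * (1 - conj a * p.1)⁻¹) p := h2.mul h4
        simp only [div_eq_mul_inv]
        exact h5.differentiableWithinAt
    exact h1.prodMk differentiable_snd.differentiableOn
  have hn : ‖-a‖ < 1 := by rwa [norm_neg]
  refine ⟨hd a ha, fun p hp => mob_lt ha hp, fun p => (mob (-a) p.1, p.2), hd _ hn,
    fun p hp => mob_lt hn hp, fun p hp => ?_, fun p hp => ?_⟩
  · exact Prod.ext (mob_inv ha hp) rfl
  · have := mob_inv hn hp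
    rw [neg_neg] at this
    exact Prod.ext this rfl

theorem transitive_XX : ActsTransitively XX := by
  intro x hx y hy
  have hn : ‖-y.1‖ < 1 := by rw [norm_neg]; exact hy
  have h1 : IsAut XX (fun p : C3 => (p.1, p.2 + (y.2 - x.2))) :=
    isAut_of (G := fun p : C3 => (p.1, p.2 - (y.2 - x.2))) (by fun_prop) (by fun_prop)
      (fun _ => rfl) (fun _ => rfl) (fun p => Prod.ext rfl (add_sub_cancel_right _ _))
      (fun p => Prod.ext rfl (sub_add_cancel _ _))
  refine ⟨_, ((isAut_mob hx).comp h1).comp (isAut_mob hn), ?_⟩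
  show (mob (-y.1) (mob x.1 x.1), x.2 + (y.2 - x.2)) = y
  refine Prod.ext ?_ (by simp)
  simp [mob]

/-- the points `(0, n, 0)` -/
def pt (n : ℕ) : C3 := (0, ((n : ℂ), 0))

theorem pt_inj : Function.Injective pt := by
  intro m n h
  have h1 : (m : ℂ) = n := congrArg (fun p : C3 => p.2.1) h
  exact_mod_cast h1

theorem isTame_pt : IsTame XX (range pt) where
  subset := by
    rintro _ ⟨n, rfl⟩
    simp [XX, pt]
  infinite := Set.infinite_range_of_injective pt_inj
  discrete := by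
    intro x _ hx
    rw [accPt_iff_nhds] at hx
    obtain ⟨y, ⟨hy1, m, rfl⟩, hy2⟩ := hx (Metric.ball x (1 / 2)) (Metric.ball_mem_nhds _ (by norm_num))
    have hpos : 0 < dist (pt m) x := dist_pos.2 hy2
    obtain ⟨z, ⟨hz1, n, rfl⟩, hz2⟩ := hx (Metric.ball x (min (1 / 2) (dist (pt m) x)))
      (Metric.ball_mem_nhds _ (lt_min (by norm_num) hpos))
    have h1 : dist (pt n) x < 1 / 2 := (Metric.mem_ball.1 hz1).trans_le (min_le_left _ _)
    have h2 : dist (pt n) x < dist (pt m) x := (Metric.mem_ball.1 hz1).trans_le (min_le_right _ _)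
    have h3 : dist (pt m) (pt n) < 1 := by
      have := dist_triangle_right (pt m) (pt n) x
      have h4 := Metric.mem_ball.1 hy1
      linarith
    have h4 : m = n := by
      by_contra hne
      have h5 : dist ((m : ℂ)) (n : ℂ) ≤ dist (pt m) (pt n) := by
        rw [pt, pt, Prod.dist_eq, Prod.dist_eq]
        exact le_max_of_le_right (le_max_left _ _)
      have h6 : (1 : ℝ) ≤ dist ((m : ℂ)) (n : ℂ) := by
        have h7 : dist ((m : ℂ)) (n : ℂ) = ((|(m : ℤ) - (n : ℤ)| : ℤ) : ℝ) := by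
          rw [dist_eq_norm]
          have e : (m : ℂ) - (n : ℂ) = ((((m : ℤ) - (n : ℤ) : ℤ) : ℝ) : ℂ) := by push_cast; rfl
          rw [e, Complex.norm_real, Real.norm_eq_abs, Int.cast_abs]
        rw [h7]
        have h8 : (1 : ℤ) ≤ |(m : ℤ) - (n : ℤ)| := by
          have : (m : ℤ) - n ≠ 0 := by omega
          exact Int.one_le_abs this
        exact_mod_cast h8
      linarith
    subst h4
    exact lt_irrefl _ h2
  extend := by
    intro f hmaps hinj
    have h1 : ∀ n : ℕ, ∃ m : ℕ, pt m = f (pt n) := fun n => hmaps (mem_range_self n)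
    choose s hs using h1
    have hsinj : Function.Injective s := by
      intro m n h
      apply pt_inj
      apply hinj (mem_range_self m) (mem_range_self n)
      rw [← hs, ← hs, h]
    obtain ⟨h, hh, hhn⟩ := Pool.Agent.X170.Tame.exists_entire_interp fun n => (s n : ℂ)
    obtain ⟨k, hk, hkn⟩ := Pool.Agent.X170.Tame.exists_entire_interp
      fun m : ℕ => (m : ℂ) - ((Function.invFun s m : ℕ) : ℂ)
    have hk' : ∀ n : ℕ, k (s n : ℂ) = (s n : ℂ) - n := by
      intro n
      rw [hkn, Function.leftInverse_invFun hsinj]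
    have a1 : IsAut XX (fun p : C3 => (p.1, (p.2.1, p.2.2 + h p.2.1))) :=
      isAut_of (G := fun p : C3 => (p.1, (p.2.1, p.2.2 - h p.2.1)))
        (by fun_prop) (by fun_prop) (fun _ => rfl) (fun _ => rfl)
        (fun p => Prod.ext rfl (Prod.ext rfl (add_sub_cancel_right _ _)))
        (fun p => Prod.ext rfl (Prod.ext rfl (sub_add_cancel _ _)))
    have a2 : IsAut XX (fun p : C3 => (p.1, (p.2.1 + k p.2.2, p.2.2))) :=
      isAut_of (G := fun p : C3 => (p.1, (p.2.1 - k p.2.2, p.2.2)))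
        (by fun_prop) (by fun_prop) (fun _ => rfl) (fun _ => rfl)
        (fun p => Prod.ext rfl (Prod.ext (add_sub_cancel_right _ _) rfl))
        (fun p => Prod.ext rfl (Prod.ext (sub_add_cancel _ _) rfl))
    have a3 : IsAut XX (fun p : C3 => (p.1, (p.2.1, p.2.2 - p.2.1))) :=
      isAut_of (G := fun p : C3 => (p.1, (p.2.1, p.2.2 + p.2.1)))
        (by fun_prop) (by fun_prop) (fun _ => rfl) (fun _ => rfl)
        (fun p => Prod.ext rfl (Prod.ext rfl (sub_add_cancel _ _)))
        (fun p => Prod.ext rfl (Prod.ext rfl (add_sub_cancel_right _ _)))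
    refine ⟨_, (a1.comp a2).comp a3, ?_⟩
    rintro _ ⟨n, rfl⟩
    rw [← hs]
    show ((0 : ℂ), ((n : ℂ) + k (0 + h n), 0 + h n - ((n : ℂ) + k (0 + h n)))) = pt (s n)
    rw [hhn, zero_add, hk', pt]
    refine Prod.ext rfl (Prod.ext ?_ ?_)
    · simp
    · simp

theorem complete_fst {V : C3 → C3} (h : IsCompleteField XX V) {x : C3} (hx : x ∈ XX) :
    (V x).1 = 0 := by
  obtain ⟨γ, h0, hγ⟩ := h.2 x hx
  have hd : ∀ t, HasDerivAt (fun t => (γ t).1) (V (γ t)).1 t := fun t => (hγ t).2.fst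
  have hdiff : Differentiable ℂ (fun t => (γ t).1) := fun t => (hd t).differentiableAt
  have hb : Bornology.IsBounded (range fun t => (γ t).1) := by
    refine Metric.isBounded_closedBall.subset (t := Metric.closedBall (0 : ℂ) 1) ?_
    rintro _ ⟨t, rfl⟩
    rw [mem_closedBall_zero_iff]
    exact (hγ t).1.le
  have hconst : ∀ t, (γ t).1 = (γ 0).1 := fun t => hdiff.apply_eq_apply_of_bounded hb t 0
  have h1 : HasDerivAt (fun t => (γ t).1) 0 0 := by
    have : (fun t => (γ t).1) = fun _ => (γ 0).1 := funext hconst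
    rw [this]
    exact hasDerivAt_const _ _
  have h2 := (hd 0).unique h1
  rwa [h0] at h2

theorem not_flexible_XX : ¬ IsFlexible XX := by
  intro h
  have h0 : (0 : C3) ∈ XX := by simp [XX]
  have h1 := h 0 h0
  have h2 : Submodule.span ℂ {v | ∃ V, IsCompleteField XX V ∧ V 0 = v} ≤
      LinearMap.ker (LinearMap.fst ℂ ℂ (ℂ × ℂ)) := by
    rw [Submodule.span_le]
    rintro _ ⟨V, hV, rfl⟩
    exact complete_fst hV h0
  rw [h1, top_le_iff] at h2
  have h3 : ((1, 0) : C3) ∈ LinearMap.ker (LinearMap.fst ℂ ℂ (ℂ × ℂ)) := by rw [h2]; trivial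
  exact one_ne_zero (α := ℂ) h3

theorem lieGen_fst {W : C3 → C3} (h : LieGen XX W) : ∀ x ∈ XX, (W x).1 = 0 := by
  induction h with
  | complete h => exact fun x hx => complete_fst h hx
  | add _ _ ih1 ih2 =>
    intro x hx
    show _ + _ = (0 : ℂ)
    rw [ih1 x hx, ih2 x hx, add_zero]
  | smul c _ ih =>
    intro x hx
    show c • _ = (0 : ℂ)
    rw [ih x hx, smul_zero]
  | bracket _ _ ih1 ih2 =>
    have key : ∀ (W : C3 → C3), (∀ x ∈ XX, (W x).1 = 0) → ∀ x ∈ XX, ∀ v, (fderiv ℂ W x v).1 = 0 := by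
      intro W hW x hx v
      by_cases hd : DifferentiableAt ℂ W x
      · have h1 : HasFDerivAt (fun y => (W y).1) ((ContinuousLinearMap.fst ℂ ℂ (ℂ × ℂ)).comp
            (fderiv ℂ W x)) x := (ContinuousLinearMap.fst ℂ ℂ (ℂ × ℂ)).hasFDerivAt.comp x hd.hasFDerivAt
        have h2 : (fun y => (W y).1) =ᶠ[𝓝 x] fun _ => 0 := by
          filter_upwards [isOpen_XX.mem_nhds hx] with y hy using hW y hy
        have h3 : HasFDerivAt (fun y => (W y).1) (0 : C3 →L[ℂ] ℂ) x :=
          (hasFDerivAt_const (0 : ℂ) x).congr_of_eventuallyEq h2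
        have h4 := h1.unique h3
        have h5 := congrArg (fun L : C3 →L[ℂ] ℂ => L v) h4
        exact h5
      · rw [fderiv_zero_of_not_differentiableAt hd]
        rfl
    intro x hx
    show _ - _ = (0 : ℂ)
    rw [key _ ih2 x hx, key _ ih1 x hx, sub_zero]

theorem not_density_XX : ¬ HasDensityProperty XX := by
  intro h
  have h0 : (0 : C3) ∈ XX := by simp [XX]
  obtain ⟨W, hW, hW'⟩ := h (fun _ => (1, 0)) (differentiableOn_const _) {0}
    (by rintro _ rfl; exact h0) isCompact_singleton 1 one_pos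
  have h1 := hW' 0 rfl
  have h2 := lieGen_fst hW 0 h0
  have h3 : ‖(((1, 0) : C3) - W 0).1‖ ≤ ‖((1, 0) : C3) - W 0‖ := norm_fst_le _
  have h4 : (((1, 0) : C3) - W 0).1 = 1 := by
    show (1 : ℂ) - (W 0).1 = 1
    rw [h2, sub_zero]
  rw [h4, norm_one] at h3
  exact absurd h1 (not_lt.2 h3)

/-- **Negative answers to both questions.** The Stein manifold `X = Δ × ℂ²` has a transitive
automorphism group and contains a tame set, but it is not holomorphically flexible and it does not have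
the density property. -/
theorem result : ∃ X : Set C3, X = {p | ‖p.1‖ < 1} ∧ IsStein X ∧ ActsTransitively X ∧
    (∃ A, IsTame X A) ∧ ¬ IsFlexible X ∧ ¬ HasDensityProperty X :=
  ⟨XX, rfl, isStein_XX, transitive_XX, ⟨_, isTame_pt⟩, not_flexible_XX, not_density_XX⟩

end Pool.Agent.Results.MP_2740df_an.DiscTimesPlane
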